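import Pool.Agent.Lib.HS66.LimHol

/-! Averages of a function with Levi form bounded below: sub-mean inequality and logarithmic
lower bound. -/

open scoped Topology ENNReal NNReal ContDiff
open Set Filter Metric MeasureTheory Complex

noncomputable section

namespace Pool.Agent.Lib.HS66

variable {n : ℕ}

/-- Four times the Levi form. -/
def lv (w : (Fin n → ℂ) → ℝ) (z v : Fin n → ℂ) : ℝ :=
  fderiv ℝ (fderiv ℝ w) z v v + fderiv ℝ (fderiv ℝ w) z (I • v) (I • v)

theorem Ker.hasDerivAt {g : (Fin n → ℂ) → ℝ} {r : ℝ} (hg : Ker g r)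
    {Φ Φ' : ℝ → (Fin n → ℂ) → ℝ} (h0 : ∀ s, Continuous (Φ s))
    (h1 : Continuous fun p : ℝ × (Fin n → ℂ) => Φ' p.1 p.2)
    (hd : ∀ s t, HasDerivAt (fun s => Φ s t) (Φ' s t) s) (s : ℝ) :
    HasDerivAt (fun s => ∫ t, g t • Φ s t) (∫ t, g t • Φ' s t) s := by
  obtain ⟨M, hM⟩ := ((isCompact_closedBall s 1).prod
    (isCompact_closedBall (0 : Fin n → ℂ) r)).exists_bound_of_continuousOn h1.continuousOn
  refine (hasDerivAt_integral_of_dominated_loc_of_deriv_le (μ := volume) (x₀ := s)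
    (F := fun s t => g t • Φ s t) (F' := fun s t => g t • Φ' s t)
    (bound := fun t => g t * M) (closedBall_mem_nhds s one_pos)
    (.of_forall fun s => (hg.int_smul (h0 s)).1) (hg.int_smul (h0 s))
    (hg.int_smul (h1.comp (Continuous.prodMk_right s))).1
    (.of_forall fun t σ hσ => ?_) (hg.integrable.mul_const M)
    (.of_forall fun t σ _ => (hd σ t).const_smul (g t))).2
  by_cases h : g t = 0
  · simp [h]
  rw [norm_smul, Real.norm_of_nonneg (hg.nn t)]
  exact mul_le_mul_of_nonneg_left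
    (hM (σ, t) ⟨hσ, mem_closedBall_zero_iff.2 (hg.supp t h)⟩) (hg.nn t)

theorem Ker.rot' {g : (Fin n → ℂ) → ℝ} {r : ℝ} (hg : Ker g r) {h : (Fin n → ℂ) → ℝ}
    (hh : ContDiff ℝ 1 h) : ∫ t, g t • fderiv ℝ h t (I • t) = 0 := by
  have hD := hh.continuous_fderiv one_ne_zero
  have h0 := hh.continuous
  have key := hg.hasDerivAt (Φ := fun θ t => h (exp (θ * I) • t))
    (Φ' := fun θ t => fderiv ℝ h (exp (θ * I) • t) ((exp (θ * I) * I) • t))
    (fun θ => by fun_prop) (by fun_prop) (fun θ t => by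
      have h1 : HasDerivAt (fun θ : ℝ => exp (θ * I)) (exp (θ * I) * I) θ := by
        simpa using ((hasDerivAt_id (θ : ℂ)).mul_const I).cexp.comp_ofReal
      exact ((hh.differentiable one_ne_zero) _).hasFDerivAt.comp_hasDerivAt θ
        (h1.smul_const t)) 0
  have hconst : (fun θ : ℝ => ∫ t, g t • h (exp (θ * I) • t)) = fun _ => ∫ t, g t • h t := by
    funext θ
    have hu : ‖exp (θ * I)‖ = 1 := norm_exp_ofReal_mul_I θ
    have hm := SV.H85.measurePreserving_smul (E := Fin n → ℂ) volume hu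
    have := integral_map (μ := volume) hm.measurable.aemeasurable (f := fun t => g t • h t)
      (by rw [hm.map_eq]; exact (hg.int_smul h0).1)
    rw [hm.map_eq] at this
    rw [this]
    simp only [hg.inv _ _ hu]
  rw [hconst] at key
  simpa using key.unique (hasDerivAt_const _ _)

/-- The derivatives of the averages. -/
theorem Ker.avg {g : (Fin n → ℂ) → ℝ} {r : ℝ} (hg : Ker g r) {W : (Fin n → ℂ) → ℝ}
    (hW : ContDiff ℝ 2 W) (x : Fin n → ℂ) : ∃ φ' : ℝ → ℝ,
    (∀ s, HasDerivAt (fun s : ℝ => ∫ t, g t • W (x - s • t)) (φ' s) s) ∧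
    ∀ s, HasDerivAt (fun s => s * φ' s) (s * ∫ t, g t • lv W (x - s • t) t) s := by
  have h1 : ContDiff ℝ 1 (fderiv ℝ W) := hW.fderiv_right (m := 1) (by norm_num)
  have hW0 := hW.continuous
  have hD := h1.continuous
  have hD2 := h1.continuous_fderiv one_ne_zero
  have hl : ∀ (s : ℝ) (t : Fin n → ℂ), HasDerivAt (fun s : ℝ => x - s • t) (-t) s := fun s t => by
    simpa using ((hasDerivAt_id s).smul_const t).const_sub x
  refine ⟨fun s => ∫ t, g t • fderiv ℝ W (x - s • t) (-t), fun s => ?_, fun s => ?_⟩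
  · exact hg.hasDerivAt (Φ := fun s t => W (x - s • t))
      (Φ' := fun s t => fderiv ℝ W (x - s • t) (-t)) (fun s => by fun_prop) (by fun_prop)
      (fun s t => ((hW.differentiable two_ne_zero) _).hasFDerivAt.comp_hasDerivAt s (hl s t)) s
  have h2 := hg.hasDerivAt (Φ := fun s t => fderiv ℝ W (x - s • t) (-t))
    (Φ' := fun s t => fderiv ℝ (fderiv ℝ W) (x - s • t) t t) (fun s => by fun_prop) (by fun_prop)
    (fun s t => by
      have := (((h1.differentiable one_ne_zero) _).hasFDerivAt.comp_hasDerivAt s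
        (hl s t)).clm_apply (hasDerivAt_const s (-t))
      simpa using this) s
  have h3 := hg.rot' (h := fun t => fderiv ℝ W (x - s • t) (I • t)) (by fun_prop)
  have h4 : ∀ t : Fin n → ℂ, fderiv ℝ (fun t => fderiv ℝ W (x - s • t) (I • t)) t (I • t) =
      fderiv ℝ W (x - s • t) (-t) -
        s * fderiv ℝ (fderiv ℝ W) (x - s • t) (I • t) (I • t) := fun t => by
    have ha : HasFDerivAt (fun t : Fin n → ℂ => x - s • t)
        (-(s • ContinuousLinearMap.id ℝ (Fin n → ℂ))) t :=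
      ((hasFDerivAt_id t).const_smul s).const_sub x
    have hb : HasFDerivAt (fun t : Fin n → ℂ => I • t)
        (I • ContinuousLinearMap.id ℝ (Fin n → ℂ)) t := (hasFDerivAt_id t).const_smul I
    have hc := (((h1.differentiable one_ne_zero) _).hasFDerivAt.comp t ha).clm_apply hb
    have hd : fderiv ℝ (fun t => fderiv ℝ W (x - s • t) (I • t)) t = _ := hc.fderiv
    rw [hd]
    simp [smul_smul, sub_eq_add_neg]
  simp only [h4, smul_sub] at h3
  rw [integral_sub (hg.int_smul (by fun_prop)) (hg.int_smul (by fun_prop)), sub_eq_zero] at h3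
  refine ((hasDerivAt_id' s).fun_mul h2).congr_deriv ?_
  rw [one_mul, h3]
  simp only [lv, smul_add, ← mul_smul_comm]
  rw [integral_add (hg.int_smul (by fun_prop)) (hg.int_smul (by fun_prop)), integral_const_mul]
  ring

/-- The corrected averages: `s` times the derivative is monotone and vanishes at zero. -/
theorem Ker.mono {g : (Fin n → ℂ) → ℝ} {r : ℝ} (hg : Ker g r) {w : (Fin n → ℂ) → ℝ}
    {x : Fin n → ℂ} {A S : ℝ} (hA : 0 ≤ A) (hr : 0 < r) (hS : 0 < S)
    (hw : ∀ z ∈ closedBall x (S * r), ContDiffAt ℝ 2 w z ∧ ∀ v, -(A * ‖v‖ ^ 2) ≤ lv w z v) :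
    ∃ φ φ' : ℝ → ℝ, (∀ s, HasDerivAt φ (φ' s) s) ∧ MonotoneOn (fun s => s * φ' s) (Icc 0 S) ∧
      ∀ s ∈ Icc 0 S, φ s = (∫ t, g t • w (x - s • t)) + A * r ^ 2 * s ^ 2 / 4 := by
  obtain ⟨δ, hδ, hs⟩ := (isCompact_closedBall x (S * r)).exists_cthickening_subset_open
    (t := {z | ContDiffAt ℝ 2 w z})
    (isOpen_iff_mem_nhds.2 fun z hz => ContDiffAt.eventually hz (by simp)) fun z hz => (hw z hz).1
  rw [cthickening_closedBall hδ.le (by positivity)] at hs
  let χ : ContDiffBump x := ⟨δ / 2 + S * r, δ + S * r, by positivity, by linarith⟩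
  have hχ : ∀ y ∉ closedBall x (δ + S * r), χ y = 0 := fun y hy =>
    χ.zero_of_le_dist (le_of_lt (by simpa using hy))
  have heq : ∀ y ∈ closedBall x (S * r), (fun y => χ y * w y) =ᶠ[𝓝 y] w := fun y hy => by
    filter_upwards [isOpen_ball.mem_nhds
      (closedBall_subset_ball (show S * r < δ / 2 + S * r by linarith) hy)] with z hz
    rw [χ.one_of_mem_closedBall (ball_subset_closedBall hz), one_mul]
  have hW : ContDiff ℝ 2 fun y => χ y * w y := contDiff_iff_contDiffAt.2 fun y => by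
    by_cases hy : y ∈ closedBall x (δ + S * r)
    · exact χ.contDiffAt.mul (hs hy)
    · refine (contDiffAt_const (c := (0 : ℝ))).congr_of_eventuallyEq ?_
      filter_upwards [isClosed_closedBall.isOpen_compl.mem_nhds hy] with z hz
      rw [hχ z hz, zero_mul]
  have hmem : ∀ s ∈ Icc 0 S, ∀ t, g t ≠ 0 → x - s • t ∈ closedBall x (S * r) := fun s hs t ht => by
    rw [mem_closedBall, dist_eq_norm, sub_sub_cancel_left, norm_neg, norm_smul,
      Real.norm_of_nonneg hs.1]
    exact mul_le_mul hs.2 (hg.supp t ht) (norm_nonneg _) hS.le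
  obtain ⟨φ', h1, h2⟩ := hg.avg hW x
  refine ⟨fun s => (∫ t, g t • (χ (x - s • t) * w (x - s • t))) + A * r ^ 2 * s ^ 2 / 4,
    fun s => φ' s + A * r ^ 2 * s / 2, fun s => ?_, ?_, fun s hs => ?_⟩
  · refine ((h1 s).fun_add
      ((((hasDerivAt_id' s).fun_pow 2).const_mul (A * r ^ 2)).div_const 4)).congr_deriv ?_
    simp
    ring
  · have h3 : ∀ s, HasDerivAt (fun s => s * (φ' s + A * r ^ 2 * s / 2))
        (s * ((∫ t, g t • lv (fun y => χ y * w y) (x - s • t) t) + A * r ^ 2)) s := fun s => by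
      refine (((h2 s).fun_add ((((hasDerivAt_id' s).fun_pow 2).const_mul
        (A * r ^ 2)).div_const 2)).congr_of_eventuallyEq (.of_forall fun s => ?_)).congr_deriv ?_
      · ring
      · simp
        ring
    refine monotoneOn_of_deriv_nonneg (convex_Icc 0 S)
      (fun s _ => (h3 s).continuousAt.continuousWithinAt)
      (fun s _ => (h3 s).differentiableAt.differentiableWithinAt) fun s hs => ?_
    have hs' := interior_subset hs
    rw [(h3 s).deriv]
    refine mul_nonneg hs'.1 (neg_le_iff_add_nonneg.1 ?_)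
    have hD2 := (hW.fderiv_right (m := 1) (by norm_num)).continuous_fderiv one_ne_zero
    have h4 := integral_mono (hg.int_smul (f := fun _ => -(A * r ^ 2)) continuous_const)
      (hg.int_smul (f := fun t => lv (fun y => χ y * w y) (x - s • t) t)
        (by unfold lv; fun_prop)) fun t => by
        by_cases h : g t = 0
        · simp [h]
        refine smul_le_smul_of_nonneg_left ?_ (hg.nn t)
        have h5 := hmem s hs' t h
        have h6 := (hw _ h5).2 t
        have h7 : ‖t‖ ^ 2 ≤ r ^ 2 := pow_le_pow_left₀ (norm_nonneg _) (hg.supp t h) 2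
        simp only [lv, (heq _ h5).fderiv.fderiv_eq] at h6 ⊢
        nlinarith
    rwa [integral_smul_const, hg.int, one_smul] at h4
  · beta_reduce
    congr 1
    refine integral_congr_ae (.of_forall fun t => ?_)
    by_cases h : g t = 0
    · simp [h]
    have := (heq _ (hmem s hs t h)).eq_of_nhds
    simp only [this]

/-- Sub-mean inequality. -/
theorem Ker.submean {g : (Fin n → ℂ) → ℝ} {r : ℝ} (hg : Ker g r) {w : (Fin n → ℂ) → ℝ}
    {x : Fin n → ℂ} {A : ℝ} (hA : 0 ≤ A) (hr : 0 < r)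
    (hw : ∀ z ∈ closedBall x r, ContDiffAt ℝ 2 w z ∧ ∀ v, -(A * ‖v‖ ^ 2) ≤ lv w z v) :
    w x ≤ (∫ t, g t • w (x - t)) + A * r ^ 2 / 4 := by
  obtain ⟨φ, φ', h1, h2, h3⟩ := hg.mono hA hr one_pos (by rwa [one_mul])
  have h4 : MonotoneOn φ (Icc 0 1) := monotoneOn_of_deriv_nonneg (convex_Icc 0 1)
    (fun s _ => (h1 s).continuousAt.continuousWithinAt)
    (fun s _ => (h1 s).differentiableAt.differentiableWithinAt) fun s hs => by
      rw [interior_Icc] at hs
      have := h2 (left_mem_Icc.2 zero_le_one) (Ioo_subset_Icc_self hs) hs.1.le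
      rw [(h1 s).deriv]
      exact nonneg_of_mul_nonneg_right (by simpa [mul_comm] using this) hs.1 |> fun h => h
  have h5 := h4 (left_mem_Icc.2 zero_le_one) (right_mem_Icc.2 zero_le_one) zero_le_one
  rw [h3 0 (left_mem_Icc.2 zero_le_one), h3 1 (right_mem_Icc.2 zero_le_one)] at h5
  simpa [integral_mul_const, hg.int] using h5

/-- Logarithmic lower bound for the averages of a non-positive function. -/
theorem Ker.logb {g : (Fin n → ℂ) → ℝ} {r : ℝ} (hg : Ker g r) {w : (Fin n → ℂ) → ℝ}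
    {x : Fin n → ℂ} {A L s : ℝ} (hA : 0 ≤ A) (hr : 0 < r)
    (hw : ∀ z ∈ closedBall x (2 * r), ContDiffAt ℝ 2 w z ∧ w z ≤ 0 ∧
      ∀ v, -(A * ‖v‖ ^ 2) ≤ lv w z v) (hL : -L ≤ ∫ t, g t • w (x - t)) (hs : 0 < s) (hs1 : s ≤ 1) :
    -(2 * (L + A * r ^ 2) * (1 + Real.log (1 / s))) ≤ ∫ t, g t • w (x - s • t) := by
  obtain ⟨φ, φ', h1, h2, h3⟩ := hg.mono hA hr two_pos fun z hz => ⟨(hw z hz).1, (hw z hz).2.2⟩
  have hd : ∀ τ, 0 < τ → HasDerivAt (fun τ => φ τ - φ' 1 * Real.log τ)
      ((τ * φ' τ - 1 * φ' 1) / τ) τ := fun τ hτ => by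
    refine ((h1 τ).fun_sub ((Real.hasDerivAt_log hτ.ne').const_mul (φ' 1))).congr_deriv ?_
    field_simp
  have h12 : (1 : ℝ) ∈ Icc (0 : ℝ) 2 := ⟨zero_le_one, one_le_two⟩
  have ha : AntitoneOn (fun τ => φ τ - φ' 1 * Real.log τ) (Icc s 1) :=
    antitoneOn_of_deriv_nonpos (convex_Icc s 1)
      (fun τ hτ => (hd τ (hs.trans_le hτ.1)).continuousAt.continuousWithinAt)
      (fun τ hτ => (hd τ (hs.trans_le (interior_subset hτ).1)).differentiableAt.differentiableWithinAt)
      fun τ hτ => by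
        have hτ' := interior_subset hτ
        have h0 := hs.trans_le hτ'.1
        rw [(hd τ h0).deriv]
        exact div_nonpos_of_nonpos_of_nonneg
          (sub_nonpos.2 (h2 ⟨h0.le, hτ'.2.trans one_le_two⟩ h12 hτ'.2)) h0.le
  have hb : MonotoneOn (fun τ => φ τ - φ' 1 * Real.log τ) (Icc 1 2) :=
    monotoneOn_of_deriv_nonneg (convex_Icc 1 2)
      (fun τ hτ => (hd τ (one_pos.trans_le hτ.1)).continuousAt.continuousWithinAt)
      (fun τ hτ =>
        (hd τ (one_pos.trans_le (interior_subset hτ).1)).differentiableAt.differentiableWithinAt)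
      fun τ hτ => by
        have hτ' := interior_subset hτ
        have h0 := one_pos.trans_le hτ'.1
        rw [(hd τ h0).deriv]
        exact div_nonneg (sub_nonneg.2 (h2 h12 ⟨h0.le, hτ'.2⟩ hτ'.1)) h0.le
  have h4 := ha (left_mem_Icc.2 hs1) (right_mem_Icc.2 hs1) hs1
  have h5 := hb (left_mem_Icc.2 one_le_two) (right_mem_Icc.2 one_le_two) one_le_two
  have hneg : ∀ σ : ℝ, σ ∈ Icc (0 : ℝ) 2 → ∫ t, g t • w (x - σ • t) ≤ 0 := fun σ hσ =>
    integral_nonpos fun t => by
      by_cases h : g t = 0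
      · simp [h]
      refine mul_nonpos_of_nonneg_of_nonpos (hg.nn t) (hw _ ?_).2.1
      rw [mem_closedBall, dist_eq_norm, sub_sub_cancel_left, norm_neg, norm_smul,
        Real.norm_of_nonneg hσ.1]
      exact mul_le_mul hσ.2 (hg.supp t h) (norm_nonneg _) zero_le_two
  have h6 := hneg 2 (right_mem_Icc.2 zero_le_two)
  have h7 := hneg 1 h12
  simp only [h3 s ⟨hs.le, hs1.trans one_le_two⟩, h3 1 h12, h3 2 (right_mem_Icc.2 zero_le_two),
    Real.log_one, mul_zero, sub_zero, one_smul] at h4 h5 h7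
  have h8 : 0 ≤ -Real.log s := neg_nonneg.2 (Real.log_nonpos hs.le hs1)
  have h9 : 1 / 2 < Real.log 2 := lt_trans (by norm_num) Real.log_two_gt_d9
  have hB : 0 ≤ A * r ^ 2 := by positivity
  have hs2 : s ^ 2 ≤ 1 := pow_le_one₀ hs.le hs1
  rw [one_div, Real.log_inv]
  generalize A * r ^ 2 = B at *
  have h10 : φ' 1 ≤ 2 * (L + B) := by
    by_contra h
    nlinarith [not_le.1 h]
  nlinarith [mul_le_mul_of_nonneg_right h10 h8, mul_le_mul_of_nonneg_left hs2 hB]

end Pool.Agent.Lib.HS66
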