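import Pool.Agent.Lib.HS66.Rad

/-! Bounded functions whose antiholomorphic derivatives tend to zero in the mean converge in the
mean, along an ultrafilter, to a holomorphic function. -/

open scoped Topology ENNReal NNReal ContDiff Convolution
open Set Filter Metric MeasureTheory Complex

noncomputable section

namespace Pool.Agent.Lib.HS66

variable {n : ℕ}

theorem exists_ker {r : ℝ} (hr : 0 < r) :
    ∃ g : (Fin n → ℂ) → ℝ, ContDiff ℝ ∞ g ∧ Ker g r := by
  set q : (Fin n → ℂ) → ℝ := fun t => expNegInvGlue (r ^ 2 - ∑ j, ‖t j‖ ^ 2) with hq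
  have hs : ContDiff ℝ ∞ q := by
    refine expNegInvGlue.contDiff.comp (contDiff_const.sub (ContDiff.sum fun j _ => ?_))
    exact (contDiff_norm_sq ℂ).comp (contDiff_apply ℝ ℂ j)
  have hsupp : ∀ t, q t ≠ 0 → ‖t‖ ≤ r := fun t ht => by
    refine (pi_norm_le_iff_of_nonneg hr.le).2 fun j => ?_
    by_contra h
    refine ht (expNegInvGlue.zero_of_nonpos ?_)
    have h1 : ‖t j‖ ^ 2 ≤ ∑ j, ‖t j‖ ^ 2 :=
      Finset.single_le_sum (f := fun j => ‖t j‖ ^ 2) (fun _ _ => sq_nonneg _) (Finset.mem_univ j)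
    nlinarith [not_le.1 h]
  have hc : HasCompactSupport q := HasCompactSupport.intro (isCompact_closedBall 0 r) fun t ht => by
    by_contra h
    exact ht (mem_closedBall_zero_iff.2 (hsupp t h))
  have hpos : 0 < ∫ t, q t := by
    refine hs.continuous.integral_pos_of_hasCompactSupport_nonneg_nonzero hc
      (fun t => expNegInvGlue.nonneg _) (x := 0) (ne_of_gt ?_)
    refine expNegInvGlue.pos_of_pos ?_
    simpa using pow_pos hr 2
  refine ⟨fun t => q t / ∫ t, q t, hs.div_const _, (hs.div_const _).continuous,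
    fun t => div_nonneg (expNegInvGlue.nonneg _) hpos.le,
    fun t ht => hsupp t fun h => ht (by rw [h, zero_div]), fun u t hu => ?_, ?_⟩
  · simp [hq, hu]
  · rw [integral_div, div_self hpos.ne']

/-- Limit of a bounded equi-Lipschitz family along an ultrafilter. -/
theorem ulim {ι Y F : Type*} [PseudoMetricSpace Y] [NormedAddCommGroup F] [ProperSpace F]
    (l : Ultrafilter ι) {f : ι → Y → F} {K M : ℝ} (hb : ∀ i x, ‖f i x‖ ≤ M)
    (hl : ∀ i x y, ‖f i x - f i y‖ ≤ K * dist x y) :
    ∃ p : Y → F, (∀ x, Tendsto (fun i => f i x) l (𝓝 (p x))) ∧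
      TendstoLocallyUniformlyOn f p l univ := by
  have h1 : ∀ x, ∃ p, Tendsto (fun i => f i x) l (𝓝 p) := fun x => by
    obtain ⟨p, -, hp⟩ := (isCompact_closedBall (0 : F) M).ultrafilter_le_nhds
      (l.map fun i => f i x) (le_principal_iff.2 (mem_map.2 (univ_mem' fun i =>
        mem_closedBall_zero_iff.2 (hb i x))))
    exact ⟨p, hp⟩
  choose p hp using h1
  refine ⟨p, hp, SV.H85.tendstoLocallyUniformlyOn_of_equi (fun x _ ε hε => ?_) fun y _ => hp y⟩
  have h2 : ∀ᶠ y in 𝓝 x, K * dist x y < ε :=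
    ContinuousAt.eventually_lt (by fun_prop) continuousAt_const (by simpa using hε)
  refine (h2.filter_mono nhdsWithin_le_nhds).mono fun y hy i => ?_
  rw [dist_eq_norm]
  exact (hl i x y).trans_lt hy

theorem conv_lip {k : (Fin n → ℂ) → ℝ} {K : ℝ} (hk : ∀ a b, |k a - k b| ≤ K * dist a b)
    (hk0 : Continuous k) {G : (Fin n → ℂ) → ℂ} (hG : Continuous G) (hc : HasCompactSupport G)
    (x y : Fin n → ℂ) :
    ‖(∫ t, k (x - t) • G t) - ∫ t, k (y - t) • G t‖ ≤ K * dist x y * ∫ t, ‖G t‖ := by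
  have hi : ∀ z : Fin n → ℂ, Integrable fun t => k (z - t) • G t := fun z =>
    Continuous.integrable_of_hasCompactSupport (by fun_prop)
      (hc.smul_left (f := fun t => k (z - t)))
  rw [← integral_sub (hi x) (hi y), ← integral_const_mul]
  refine norm_integral_le_of_norm_le
    ((hG.integrable_of_hasCompactSupport hc).norm.const_mul _) (.of_forall fun t => ?_)
  rw [← sub_smul, norm_smul]
  refine mul_le_mul_of_nonneg_right ((hk _ _).trans (le_of_eq ?_)) (norm_nonneg _)
  rw [dist_sub_right]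

theorem clin (L : (Fin n → ℂ) →L[ℝ] ℂ)
    (h : ∀ j, L (Pi.single j 1) + I * L (Pi.single j I) = 0) :
    ∃ L' : (Fin n → ℂ) →L[ℂ] ℂ, L'.restrictScalars ℝ = L := by
  have h1 : ∀ v, L (I • v) = I * L v := fun v => by
    have := anti_eq L v
    simp only [h, mul_zero, Finset.sum_const_zero] at this
    linear_combination (-I) * this + L (I • v) * I_mul_I
  refine ⟨⟨⟨⟨L, L.map_add⟩, fun c v => ?_⟩, L.cont⟩, by ext; rfl⟩
  have : c • v = c.re • v + c.im • (I • v) := by
    ext j
    simp only [Pi.smul_apply, Pi.add_apply, smul_eq_mul, real_smul]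
    conv_lhs => rw [← re_add_im c]
    ring
  simp only [this, map_add, map_smul, h1, real_smul, RingHom.id_apply, smul_eq_mul]
  conv_rhs => rw [← re_add_im c]
  ring

/-- The limit on a ball, for functions with support in a fixed ball. -/
theorem loc {ι : Type*} (l : Ultrafilter ι) {G : ι → (Fin n → ℂ) → ℂ} {C r : ℝ} (hr : 0 < r)
    (c : Fin n → ℂ) (hG : ∀ i, ContDiff ℝ 1 (G i)) (hb : ∀ i y, ‖G i y‖ ≤ C)
    (hs : ∀ i, ∀ y ∉ closedBall c (4 * r), G i y = 0)
    (h0 : Tendsto (fun i => ∫⁻ y in ball c (r + r), ENNReal.ofReal (dbn (G i) y)) l (𝓝 0)) :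
    ∃ P : (Fin n → ℂ) → ℂ, DifferentiableOn ℂ P (ball c r) ∧ (∀ z, ‖P z‖ ≤ C) ∧
      Tendsto (fun i => ∫⁻ x in ball c r, ‖G i x - P x‖ₑ) l (𝓝 0) := by
  obtain ⟨g, hgs, hg⟩ := exists_ker (n := n) hr
  have hg1 : ContDiff ℝ 1 g := hgs.of_le (by simp)
  have hc : ∀ i, HasCompactSupport (G i) := fun i =>
    HasCompactSupport.intro (isCompact_closedBall c (4 * r)) (hs i)
  have hG0 : ∀ i, Continuous (G i) := fun i => (hG i).continuous
  have hD0 : ∀ i, Continuous (fderiv ℝ (G i)) := fun i => (hG i).continuous_fderiv one_ne_zero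
  obtain ⟨K₀, hK₀⟩ := ContDiff.lipschitzWith_of_hasCompactSupport hg.cpt hg1 one_ne_zero
  obtain ⟨K₁, hK₁⟩ := ContDiff.lipschitzWith_of_hasCompactSupport (hg.cpt.fderiv ℝ)
    (hgs.fderiv_right (m := 1) (by norm_cast)) one_ne_zero
  obtain ⟨M, hM⟩ := hg.cpt.exists_bound_of_continuous hg.cont
  set V : ℝ := C * volume.real (closedBall c (4 * r))
  have hV : ∀ i, ∫ t, ‖G i t‖ ≤ V := fun i => by
    rw [← setIntegral_eq_integral_of_forall_compl_eq_zero (s := closedBall c (4 * r))
      fun t ht => by rw [hs i t ht, norm_zero]]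
    refine (le_abs_self _).trans ?_
    exact norm_setIntegral_le_of_norm_le_const (μ := volume) (f := fun t => ‖G i t‖)
      measure_closedBall_lt_top fun t _ => by simpa using hb i t
  set A : ι → (Fin n → ℂ) → ℂ := fun i x => ∫ t, g t • G i (x - t) with hA
  have hA1 : ∀ i, A i = g ⋆[ContinuousLinearMap.lsmul ℝ ℝ, volume] G i := fun i => rfl
  have hA2 : ∀ i, A i = G i ⋆[(ContinuousLinearMap.lsmul ℝ ℝ).flip, volume] g := fun i => by
    rw [hA1, convolution_flip]
  have hd1 : ∀ i x, HasFDerivAt (A i) (fderiv ℝ (A i) x) x ∧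
      ∀ v, fderiv ℝ (A i) x v = ∫ t, g t • fderiv ℝ (G i) (x - t) v := fun i x => by
    have h := (hc i).hasFDerivAt_convolution_right (ContinuousLinearMap.lsmul ℝ ℝ (E := ℂ))
      hg.integrable.locallyIntegrable (hG i) x
    rw [← hA1] at h
    refine ⟨h.differentiableAt.hasFDerivAt, fun v => ?_⟩
    rw [h.fderiv, convolution_precompR_apply _ hg.integrable.locallyIntegrable ((hc i).fderiv ℝ)
      (hD0 i)]
    rfl
  have hd2 : ∀ i x v, fderiv ℝ (A i) x v = ∫ t, fderiv ℝ g (x - t) v • G i t := fun i x v => by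
    have h := hg.cpt.hasFDerivAt_convolution_right (μ := volume)
      (ContinuousLinearMap.lsmul ℝ ℝ (E := ℂ)).flip (hG0 i).locallyIntegrable hg1 x
    rw [← hA2] at h
    rw [h.fderiv, convolution_precompR_apply _ (hG0 i).locallyIntegrable (hg.cpt.fderiv ℝ)
      (hg1.continuous_fderiv one_ne_zero)]
    rfl
  have hAb : ∀ i x, ‖A i x‖ ≤ C := fun i x => by
    have := norm_integral_le_of_norm_le (f := fun t => g t • G i (x - t))
      (hg.integrable.mul_const C) (.of_forall fun t => by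
        rw [norm_smul, Real.norm_of_nonneg (hg.nn t)]
        exact mul_le_mul_of_nonneg_left (hb i _) (hg.nn t))
    rwa [integral_mul_const, hg.int, one_mul] at this
  have hAl : ∀ i x y, ‖A i x - A i y‖ ≤ (K₀ * V) * dist x y := fun i x y => by
    have := conv_lip (K := K₀) (fun a b => hK₀.dist_le_mul a b) hg.cont (hG0 i) (hc i) x y
    rw [hA2]
    refine this.trans ?_
    rw [mul_right_comm]
    gcongr
    exact hV i
  have hV0 : ∀ i : ι, 0 ≤ V := fun i => (integral_nonneg fun _ => norm_nonneg _).trans (hV i)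
  have hDb : ∀ i x, ‖fderiv ℝ (A i) x‖ ≤ K₀ * V := fun i x =>
    norm_fderiv_le_of_lip' ℝ (mul_nonneg K₀.2 (hV0 i))
      (.of_forall fun y => by simpa [dist_eq_norm] using hAl i y x)
  have hDl : ∀ i x y, ‖fderiv ℝ (A i) x - fderiv ℝ (A i) y‖ ≤ (K₁ * V) * dist x y :=
    fun i x y => by
      refine ContinuousLinearMap.opNorm_le_bound _
        (mul_nonneg (mul_nonneg K₁.2 (hV0 i)) dist_nonneg) fun v => ?_
      have h1 := hg1.continuous_fderiv one_ne_zero
      have := conv_lip (k := fun a => fderiv ℝ g a v) (K := K₁ * ‖v‖) (fun a b => by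
        have h2 := (fderiv ℝ g a - fderiv ℝ g b).le_opNorm v
        have h3 := hK₁.dist_le_mul a b
        rw [dist_eq_norm] at h3
        refine (show |fderiv ℝ g a v - fderiv ℝ g b v| ≤ _ from h2).trans ?_
        rw [mul_right_comm]
        gcongr) (by fun_prop) (hG0 i) (hc i) x y
      rw [sub_apply, hd2, hd2]
      refine this.trans ?_
      have h4 := hV i
      calc _ ≤ K₁ * ‖v‖ * dist x y * V := by gcongr
        _ = _ := by ring
  obtain ⟨P, hP, hPu⟩ := ulim l hAb hAl
  obtain ⟨D, hD, hDu⟩ := ulim l hDb hDl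
  have hPd : ∀ x, HasFDerivAt P (D x) x := fun x =>
    hasFDerivAt_of_tendstoLocallyUniformlyOn isOpen_univ hDu (fun i x _ => (hd1 i x).1)
      (fun x _ => hP x) (mem_univ x)
  refine ⟨P, fun x hx => ?_, fun z => le_of_tendsto' (hP z).norm fun i => hAb i z, ?_⟩
  · obtain ⟨L, hL⟩ := clin (D x) fun j => by
      have h1 : Tendsto (fun i => fderiv ℝ (A i) x (Pi.single j 1) +
          I * fderiv ℝ (A i) x (Pi.single j I)) l
          (𝓝 (D x (Pi.single j 1) + I * D x (Pi.single j I))) := by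
        have h2 := fun v => ((ContinuousLinearMap.apply ℝ ℂ v).continuous.tendsto _).comp (hD x)
        exact (h2 _).add ((h2 _).const_mul I)
      refine tendsto_nhds_unique h1 (tendsto_zero_iff_enorm_tendsto_zero.2 ?_)
      have h3 := ENNReal.Tendsto.const_mul (a := ENNReal.ofReal M) h0
        (Or.inr ENNReal.ofReal_ne_top)
      rw [mul_zero] at h3
      refine tendsto_of_tendsto_of_tendsto_of_le_of_le tendsto_const_nhds h3
        (fun _ => zero_le) fun i => ?_
      have hD := hD0 i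
      rw [(hd1 i x).2, (hd1 i x).2, ← integral_const_mul, ← integral_add
        (hg.int_smul (by fun_prop)) ((hg.int_smul (by fun_prop)).const_mul _)]
      refine (enorm_integral_le_lintegral_enorm _).trans ?_
      rw [← lintegral_const_mul' _ _ ENNReal.ofReal_ne_top,
        ← lintegral_indicator measurableSet_ball, ← lintegral_sub_left_eq_self _ x]
      refine lintegral_mono fun y => ?_
      by_cases h : g (x - y) = 0
      · simp [h]
      have hy : y ∈ ball c (r + r) := by
        have h5 := hg.supp _ h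
        rw [← dist_eq_norm, dist_comm] at h5
        rw [mem_ball] at hx ⊢
        linarith [dist_triangle y x c]
      rw [indicator_of_mem hy, ← ofReal_norm, ← ENNReal.ofReal_mul ((norm_nonneg _).trans (hM 0)),
        sub_sub_cancel, mul_smul_comm, ← smul_add, norm_smul]
      refine ENNReal.ofReal_le_ofReal (mul_le_mul (hM _) ?_ (norm_nonneg _)
        ((norm_nonneg _).trans (hM 0)))
      exact Finset.single_le_sum (f := fun j => ‖fderiv ℝ (G i) y (Pi.single j 1) +
        I * fderiv ℝ (G i) y (Pi.single j I)‖) (fun _ _ => norm_nonneg _) (Finset.mem_univ j)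
    exact (hasFDerivAt_of_restrictScalars ℝ (hPd x) hL).differentiableAt.differentiableWithinAt
  · have h1 : Tendsto (fun i => ∫⁻ x in ball c r, ‖A i x - P x‖ₑ) l (𝓝 0) := by
      have hu := (tendstoLocallyUniformlyOn_iff_tendstoUniformlyOn_of_compact
        (isCompact_closedBall c r)).1 (hPu.mono (subset_univ _))
      refine ENNReal.tendsto_nhds_zero.2 fun ε hε => ?_
      obtain ⟨δ, hδ, hδ'⟩ := ENNReal.exists_nnreal_pos_mul_lt
        (measure_ball_lt_top (μ := volume) (x := c) (r := r)).ne hε.ne'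
      filter_upwards [Metric.tendstoUniformlyOn_iff.1 hu δ hδ] with i hi
      refine le_trans (setLIntegral_mono' (g := fun _ => (δ : ℝ≥0∞)) measurableSet_ball
        fun x hx => ?_) (by simpa using hδ'.le)
      have := (hi x (ball_subset_closedBall hx)).le
      rw [dist_comm, dist_eq_norm] at this
      rw [← ofReal_norm, ← ENNReal.ofReal_coe_nnreal]
      exact ENNReal.ofReal_le_ofReal this
    have h3 := (ENNReal.Tendsto.const_mul (a := ENNReal.ofReal r) h0
      (Or.inr ENNReal.ofReal_ne_top)).add h1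
    rw [mul_zero, add_zero] at h3
    refine tendsto_of_tendsto_of_tendsto_of_le_of_le tendsto_const_nhds h3
      (fun _ => zero_le) fun i => ?_
    refine le_trans ?_ (add_le_add (hg.est hr.le (hG i) (hc i) c r) le_rfl)
    have hAc : Continuous (A i) := continuous_iff_continuousAt.2 fun x =>
      (hd1 i x).1.continuousAt
    rw [← lintegral_add_left (f := fun x => ‖G i x - A i x‖ₑ)
      ((hG0 i).sub hAc).measurable.enorm]
    refine lintegral_mono fun x => ?_
    simpa using enorm_add_le (G i x - A i x) (A i x - P x)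

/-- Limits in the mean are unique almost everywhere. -/
theorem ae_uniq {ι F : Type*} [NormedAddCommGroup F] {l : Filter ι} [l.NeBot]
    {Q : ι → (Fin n → ℂ) → F} {P P' : (Fin n → ℂ) → F} {O : Set (Fin n → ℂ)} (hO : IsOpen O)
    (hQ : ∀ i, ContinuousOn (Q i) O) (hP : ContinuousOn P O) (hP' : ContinuousOn P' O)
    (h : Tendsto (fun i => ∫⁻ x in O, ‖Q i x - P x‖ₑ) l (𝓝 0))
    (h' : Tendsto (fun i => ∫⁻ x in O, ‖Q i x - P' x‖ₑ) l (𝓝 0)) : EqOn P P' O := by
  have hm : ∀ f g : (Fin n → ℂ) → F, ContinuousOn f O → ContinuousOn g O →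
      AEMeasurable (fun x => ‖f x - g x‖ₑ) (volume.restrict O) := fun f g hf hg =>
    (continuous_enorm.comp_continuousOn (hf.sub hg)).aemeasurable hO.measurableSet
  have h1 : ∫⁻ x in O, ‖P x - P' x‖ₑ = 0 := by
    have h2 := h.add h'
    rw [add_zero] at h2
    refine le_antisymm (ge_of_tendsto' h2 fun i => ?_) zero_le
    rw [← lintegral_add_left' (hm _ _ (hQ i) hP)]
    refine lintegral_mono fun x => ?_
    have := enorm_add_le (P x - Q i x) (Q i x - P' x)
    rwa [sub_add_sub_cancel, enorm_sub_rev (P x) (Q i x)] at this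
  rw [lintegral_eq_zero_iff' (hm _ _ hP hP')] at h1
  refine Measure.eqOn_open_of_ae_eq (μ := volume) (h1.mono fun x hx => ?_) hO hP hP'
  simpa [sub_eq_zero] using hx

/-- Uniqueness of a continuous limit in the mean on compact sets. -/
theorem lim_uniq {ι F : Type*} [NormedAddCommGroup F] {l : Filter ι} [l.NeBot]
    {Q : ι → (Fin n → ℂ) → F} {P P' : (Fin n → ℂ) → F} {U : Set (Fin n → ℂ)} (hU : IsOpen U)
    (hQ : ∀ i, ContinuousOn (Q i) U) (hP : ContinuousOn P U) (hP' : ContinuousOn P' U)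
    (h : ∀ K, IsCompact K → K ⊆ U → Tendsto (fun i => ∫⁻ x in K, ‖Q i x - P x‖ₑ) l (𝓝 0))
    (h' : ∀ K, IsCompact K → K ⊆ U → Tendsto (fun i => ∫⁻ x in K, ‖Q i x - P' x‖ₑ) l (𝓝 0)) :
    EqOn P P' U := fun x hx => by
  obtain ⟨r, hr, hs⟩ := nhds_basis_closedBall.mem_iff.1 (hU.mem_nhds hx)
  have hb : ball x r ⊆ U := ball_subset_closedBall.trans hs
  refine ae_uniq (l := l) isOpen_ball (fun i => (hQ i).mono hb) (hP.mono hb) (hP'.mono hb) ?_ ?_
    (mem_ball_self hr)
  · exact tendsto_of_tendsto_of_tendsto_of_le_of_le tendsto_const_nhds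
      (h _ (isCompact_closedBall x r) hs) (fun _ => zero_le)
      fun i => lintegral_mono_set ball_subset_closedBall
  · exact tendsto_of_tendsto_of_tendsto_of_le_of_le tendsto_const_nhds
      (h' _ (isCompact_closedBall x r) hs) (fun _ => zero_le)
      fun i => lintegral_mono_set ball_subset_closedBall

theorem loc' {ι : Type*} (l : Ultrafilter ι) {Q : ι → (Fin n → ℂ) → ℂ} {C : ℝ}
    {U : Set (Fin n → ℂ)} (hU : IsOpen U) (hQ : ∀ i, ∀ z ∈ U, ContDiffAt ℝ 1 (Q i) z)
    (hb : ∀ i, ∀ z ∈ U, ‖Q i z‖ ≤ C)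
    (h0 : ∀ K, IsCompact K → K ⊆ U →
      Tendsto (fun i => ∫⁻ y in K, ENNReal.ofReal (dbn (Q i) y)) l (𝓝 0))
    {c : Fin n → ℂ} (hc : c ∈ U) : ∃ r > 0, ball c r ⊆ U ∧
      ∃ P : (Fin n → ℂ) → ℂ, DifferentiableOn ℂ P (ball c r) ∧ (∀ z, ‖P z‖ ≤ C) ∧
      Tendsto (fun i => ∫⁻ x in ball c r, ‖Q i x - P x‖ₑ) l (𝓝 0) := by
  obtain ⟨R, hR, hs⟩ := nhds_basis_closedBall.mem_iff.1 (hU.mem_nhds hc)
  have hr : 0 < R / 4 := by positivity
  let χ : ContDiffBump c := ⟨3 * (R / 4), R, by positivity, by linarith⟩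
  have hχ : ∀ y ∉ closedBall c R, χ y = 0 := fun y hy =>
    χ.zero_of_le_dist (le_of_lt (by simpa using hy))
  have heq : ∀ i, ∀ y ∈ ball c (3 * (R / 4)), (fun y => χ y • Q i y) =ᶠ[𝓝 y] Q i := fun i y hy => by
    filter_upwards [isOpen_ball.mem_nhds hy] with w hw
    rw [χ.one_of_mem_closedBall (ball_subset_closedBall hw), one_smul]
  obtain ⟨P, h1, h2, h3⟩ := loc l (G := fun i y => χ y • Q i y) (C := C) hr c
    (fun i => contDiff_iff_contDiffAt.2 fun y => by
      by_cases hy : y ∈ closedBall c R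
      · exact χ.contDiffAt.smul (hQ i y (hs hy))
      · refine (contDiffAt_const (c := (0 : ℂ))).congr_of_eventuallyEq ?_
        filter_upwards [isClosed_closedBall.isOpen_compl.mem_nhds hy] with w hw
        rw [hχ w hw, zero_smul])
    (fun i y => by
      by_cases hy : y ∈ closedBall c R
      · rw [norm_smul, Real.norm_of_nonneg χ.nonneg]
        exact (mul_le_of_le_one_left (norm_nonneg _) χ.le_one).trans (hb i y (hs hy))
      · rw [hχ y hy, zero_smul, norm_zero]
        exact (norm_nonneg _).trans (hb i c hc))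
    (fun i y hy => by rw [hχ y (by rwa [show 4 * (R / 4) = R by ring] at hy), zero_smul])
    (by
      refine tendsto_of_tendsto_of_tendsto_of_le_of_le tendsto_const_nhds
        (h0 _ (isCompact_closedBall c R) hs) (fun _ => zero_le) fun i => ?_
      refine le_trans (setLIntegral_mono' measurableSet_ball fun y hy => le_of_eq ?_)
        (lintegral_mono_set (ball_subset_closedBall.trans
          (closedBall_subset_closedBall (by linarith))))
      simp only [dbn, (heq i y (ball_subset_ball (by linarith) hy)).fderiv_eq])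
  refine ⟨_, hr, (ball_subset_closedBall.trans
    (closedBall_subset_closedBall (by linarith))).trans hs, P, h1, h2, h3.congr fun i => ?_⟩
  refine setLIntegral_congr_fun measurableSet_ball fun y hy => ?_
  have := (heq i y (ball_subset_ball (by linarith) hy)).eq_of_nhds
  simp only [this]

/-- The limit lemma, with the sum of the moduli of the antiholomorphic derivatives. -/
theorem limHol_dbn {ι : Type*} (l : Ultrafilter ι) {Q : ι → (Fin n → ℂ) → ℂ} {C : ℝ}
    {U : Set (Fin n → ℂ)} (hU : IsOpen U) (hQ : ∀ i, ∀ z ∈ U, ContDiffAt ℝ 1 (Q i) z)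
    (hb : ∀ i, ∀ z ∈ U, ‖Q i z‖ ≤ C)
    (h0 : ∀ K, IsCompact K → K ⊆ U →
      Tendsto (fun i => ∫⁻ y in K, ENNReal.ofReal (dbn (Q i) y)) l (𝓝 0)) :
    ∃ P : (Fin n → ℂ) → ℂ, DifferentiableOn ℂ P U ∧ (∀ z ∈ U, ‖P z‖ ≤ C) ∧
      ∀ K, IsCompact K → K ⊆ U → Tendsto (fun i => ∫⁻ x in K, ‖Q i x - P x‖ₑ) l (𝓝 0) := by
  classical
  choose! r hr hs p hp hpb hpl using fun c (hc : c ∈ U) => loc' l hU hQ hb h0 hc
  have heq : ∀ c ∈ U, ∀ y ∈ ball c (r c), p y y = p c y := fun c hc y hy => by
    have hy' := hs c hc hy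
    refine ae_uniq (l := l) (Q := Q) (O := ball y (r y) ∩ ball c (r c))
      (isOpen_ball.inter isOpen_ball)
      (fun i z hz => (hQ i z (hs c hc hz.2)).continuousAt.continuousWithinAt)
      ((hp y hy').continuousOn.mono inter_subset_left)
      ((hp c hc).continuousOn.mono inter_subset_right) ?_ ?_ ⟨mem_ball_self (hr y hy'), hy⟩
    · exact tendsto_of_tendsto_of_tendsto_of_le_of_le tendsto_const_nhds (hpl y hy')
        (fun _ => zero_le) fun i => lintegral_mono_set inter_subset_left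
    · exact tendsto_of_tendsto_of_tendsto_of_le_of_le tendsto_const_nhds (hpl c hc)
        (fun _ => zero_le) fun i => lintegral_mono_set inter_subset_right
  refine ⟨fun y => p y y, fun c hc => ?_, fun z hz => hpb z hz z, fun K hK hKU => ?_⟩
  · have h1 := ball_mem_nhds c (hr c hc)
    refine (((hp c hc).differentiableAt h1).congr_of_eventuallyEq ?_).differentiableWithinAt
    filter_upwards [h1] with y hy using heq c hc y hy
  · refine hK.induction_on (p := fun S => Tendsto (fun i => ∫⁻ x in S, ‖Q i x - p x x‖ₑ) l (𝓝 0))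
      (by simp) (fun S T hST hT => ?_) (fun S T hS hT => ?_) fun c hc => ?_
    · exact tendsto_of_tendsto_of_tendsto_of_le_of_le tendsto_const_nhds hT
        (fun _ => zero_le) fun i => lintegral_mono_set hST
    · have := hS.add hT
      rw [add_zero] at this
      exact tendsto_of_tendsto_of_tendsto_of_le_of_le tendsto_const_nhds this
        (fun _ => zero_le) fun i => lintegral_union_le _ _ _
    · refine ⟨_, mem_nhdsWithin_of_mem_nhds (ball_mem_nhds c (hr c (hKU hc))),
        (hpl c (hKU hc)).congr fun i => ?_⟩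
      refine setLIntegral_congr_fun measurableSet_ball fun y hy => ?_
      simp only [heq c (hKU hc) y hy]

/-- The limit lemma, with the Wirtinger derivatives. -/
theorem limHol {ι : Type*} (l : Ultrafilter ι) {Q : ι → (Fin n → ℂ) → ℂ} {C : ℝ}
    {U : Set (Fin n → ℂ)} (hU : IsOpen U) (hQ : ∀ i, ∀ z ∈ U, ContDiffAt ℝ 1 (Q i) z)
    (hb : ∀ i, ∀ z ∈ U, ‖Q i z‖ ≤ C)
    (h0 : ∀ K, IsCompact K → K ⊆ U → ∀ j, Tendsto (fun i => ∫⁻ y in K,
      ‖(fderiv ℝ (Q i) y (Pi.single j 1) + I * fderiv ℝ (Q i) y (Pi.single j I)) / 2‖ₑ) l (𝓝 0)) :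
    ∃ P : (Fin n → ℂ) → ℂ, DifferentiableOn ℂ P U ∧ (∀ z ∈ U, ‖P z‖ ≤ C) ∧
      ∀ K, IsCompact K → K ⊆ U → Tendsto (fun i => ∫⁻ x in K, ‖Q i x - P x‖ₑ) l (𝓝 0) := by
  refine limHol_dbn l hU hQ hb fun K hK hKU => ?_
  have h1 := tendsto_finsetSum Finset.univ fun j _ =>
    ENNReal.Tendsto.const_mul (a := 2) (h0 K hK hKU j) (Or.inr (by simp))
  simp only [mul_zero, Finset.sum_const_zero] at h1
  refine h1.congr fun i => ?_
  have hm : ∀ j : Fin n, Measurable fun y => ‖(fderiv ℝ (Q i) y (Pi.single j 1) +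
      I * fderiv ℝ (Q i) y (Pi.single j I)) / 2‖ₑ := fun j =>
    (((measurable_fderiv_apply_const ℝ _ _).add
      ((measurable_fderiv_apply_const ℝ _ _).const_mul _)).div_const _).enorm
  simp only [← lintegral_const_mul _ (hm _)]
  rw [← lintegral_finsetSum _ fun j _ => (hm j).const_mul _]
  refine lintegral_congr fun y => ?_
  rw [dbn, ENNReal.ofReal_sum_of_nonneg fun _ _ => norm_nonneg _]
  refine Finset.sum_congr rfl fun j _ => ?_
  rw [← ofReal_norm, ← ENNReal.ofReal_ofNat, ← ENNReal.ofReal_mul (by norm_num), norm_div]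
  congr 1
  simp only [norm_ofNat]
  ring

end Pool.Agent.Lib.HS66
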