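import Pool.Agent.Lib.SV.Hol85
import Pool.Agent.Lib.SV.Sub85

/-! Averages against a kernel that is invariant under unit scalars: the distance to the average
is bounded by the antilinear part of the derivative. -/

open scoped Topology ENNReal ContDiff
open Set Filter Metric MeasureTheory Complex

noncomputable section

namespace Pool.Agent.Lib.HS66

variable {n : ℕ}

/-- Sum of the moduli of twice the antiholomorphic Wirtinger derivatives. -/
def dbn (G : (Fin n → ℂ) → ℂ) (y : Fin n → ℂ) : ℝ :=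
  ∑ j, ‖fderiv ℝ G y (Pi.single j 1) + I * fderiv ℝ G y (Pi.single j I)‖

theorem dbn_nonneg (G : (Fin n → ℂ) → ℂ) (y : Fin n → ℂ) : 0 ≤ dbn G y :=
  Finset.sum_nonneg fun _ _ => norm_nonneg _

theorem anti_eq (L : (Fin n → ℂ) →L[ℝ] ℂ) (v : Fin n → ℂ) :
    L v + I * L (I • v) =
      ∑ j, (starRingEnd ℂ) (v j) * (L (Pi.single j 1) + I * L (Pi.single j I)) := by
  have hv : ∀ w : Fin n → ℂ, L w = ∑ j, (((w j).re : ℂ) * L (Pi.single j 1) +
      ((w j).im : ℂ) * L (Pi.single j I)) := fun w => by
    have h : w = ∑ j, ((w j).re • (Pi.single j 1 : Fin n → ℂ) +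
        (w j).im • (Pi.single j I : Fin n → ℂ)) := by
      ext k
      simp only [Finset.sum_apply, Pi.add_apply, Pi.smul_apply, Pi.single_apply]
      rw [Finset.sum_eq_single k]
      · simp
      · intro b _ hb
        simp [hb.symm]
      · simp
    conv_lhs => rw [h]
    simp only [map_sum, map_add, map_smul, real_smul]
  rw [hv v, hv (I • v), Finset.mul_sum, ← Finset.sum_add_distrib]
  refine Finset.sum_congr rfl fun j _ => ?_
  have hc : (starRingEnd ℂ) (v j) = ((v j).re : ℂ) - ((v j).im : ℂ) * I := by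
    apply Complex.ext <;> simp
  simp only [Pi.smul_apply, smul_eq_mul, mul_re, I_re, I_im, mul_im, zero_mul, one_mul, zero_sub,
    zero_add, ofReal_neg, hc]
  linear_combination (((v j).im : ℂ) * L (Pi.single j I)) * I_mul_I

theorem anti_le (G : (Fin n → ℂ) → ℂ) (y v : Fin n → ℂ) :
    ‖fderiv ℝ G y v + I * fderiv ℝ G y (I • v)‖ ≤ dbn G y * ‖v‖ := by
  rw [anti_eq, dbn, Finset.sum_mul]
  refine (norm_sum_le _ _).trans (Finset.sum_le_sum fun j _ => ?_)
  rw [norm_mul, mul_comm, RCLike.norm_conj]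
  exact mul_le_mul_of_nonneg_left (norm_le_pi_norm v j) (norm_nonneg _)

theorem dbn_cont {G : (Fin n → ℂ) → ℂ} (hG : ContDiff ℝ 1 G) : Continuous (dbn G) := by
  have h := hG.continuous_fderiv one_ne_zero
  unfold dbn
  fun_prop

/-- An invariant probability kernel supported in the closed ball of radius `r`. -/
structure Ker (g : (Fin n → ℂ) → ℝ) (r : ℝ) : Prop where
  cont : Continuous g
  nn : ∀ t, 0 ≤ g t
  supp : ∀ t, g t ≠ 0 → ‖t‖ ≤ r
  inv : ∀ (u : ℂ) t, ‖u‖ = 1 → g (u • t) = g t
  int : ∫ t, g t = 1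

theorem Ker.cpt {g : (Fin n → ℂ) → ℝ} {r : ℝ} (hg : Ker g r) : HasCompactSupport g :=
  HasCompactSupport.intro (isCompact_closedBall 0 r) fun t ht => by
    by_contra h
    exact ht (mem_closedBall_zero_iff.2 (hg.supp t h))

theorem Ker.integrable {g : (Fin n → ℂ) → ℝ} {r : ℝ} (hg : Ker g r) : Integrable g :=
  hg.cont.integrable_of_hasCompactSupport hg.cpt

theorem Ker.int_smul {F : Type*} [NormedAddCommGroup F] [NormedSpace ℝ F]
    {g : (Fin n → ℂ) → ℝ} {r : ℝ} (hg : Ker g r) {f : (Fin n → ℂ) → F} (hf : Continuous f) :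
    Integrable fun t => g t • f t :=
  (hg.cont.smul hf).integrable_of_hasCompactSupport hg.cpt.smul_right

/-- The rotation field integrates to zero. -/
theorem Ker.rot {g : (Fin n → ℂ) → ℝ} {r : ℝ} (hg : Ker g r) {G : (Fin n → ℂ) → ℂ}
    (hG : ContDiff ℝ 1 G) (hc : HasCompactSupport G) (x : Fin n → ℂ) (s : ℝ) :
    ∫ t, g t • fderiv ℝ G (x - s • t) (s • I • t) = 0 := by
  have hD := hG.continuous_fderiv one_ne_zero
  obtain ⟨M, hM⟩ := (hc.fderiv ℝ).exists_bound_of_continuous hD
  have hM0 : 0 ≤ M := (norm_nonneg _).trans (hM 0)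
  have hder : ∀ (t : Fin n → ℂ) (θ : ℝ), HasDerivAt
      (fun θ : ℝ => g t • G (x - s • exp (θ * I) • t))
      (g t • fderiv ℝ G (x - s • exp (θ * I) • t) (-(s • (exp (θ * I) * I) • t))) θ := by
    intro t θ
    have h1 : HasDerivAt (fun θ : ℝ => exp (θ * I)) (exp (θ * I) * I) θ := by
      simpa using ((hasDerivAt_id (θ : ℂ)).mul_const I).cexp.comp_ofReal
    have h2 : HasDerivAt (fun θ : ℝ => x - s • exp (θ * I) • t)
        (-(s • (exp (θ * I) * I) • t)) θ := ((h1.smul_const t).const_smul s).const_sub x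
    exact (((hG.differentiable one_ne_zero) _).hasFDerivAt.comp_hasDerivAt θ h2).const_smul (g t)
  have key := (hasDerivAt_integral_of_dominated_loc_of_deriv_le (μ := volume) (x₀ := (0 : ℝ))
    (F := fun (θ : ℝ) t => g t • G (x - s • exp (θ * I) • t))
    (F' := fun (θ : ℝ) t =>
      g t • fderiv ℝ G (x - s • exp (θ * I) • t) (-(s • (exp (θ * I) * I) • t)))
    (bound := fun t => g t • (M * (|s| * ‖t‖))) (s := univ) univ_mem
    (.of_forall fun θ => (hg.int_smul (by have := hG.continuous; fun_prop)).1)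
    (hg.int_smul (by have := hG.continuous; fun_prop))
    (hg.int_smul (by fun_prop)).1
    (.of_forall fun t θ _ => by
      rw [norm_smul, Real.norm_of_nonneg (hg.nn t), smul_eq_mul]
      refine mul_le_mul_of_nonneg_left ((ContinuousLinearMap.le_opNorm _ _).trans ?_) (hg.nn t)
      refine mul_le_mul (hM _) (le_of_eq ?_) (norm_nonneg _) hM0
      simp [norm_smul])
    (hg.int_smul (by fun_prop))
    (.of_forall fun t θ _ => hder t θ)).2
  have hconst : (fun θ : ℝ => ∫ t, g t • G (x - s • exp (θ * I) • t)) =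
      fun _ => ∫ t, g t • G (x - s • t) := by
    funext θ
    have hu : ‖exp (θ * I)‖ = 1 := norm_exp_ofReal_mul_I θ
    have hm := SV.H85.measurePreserving_smul (E := Fin n → ℂ) volume hu
    have := integral_map (μ := volume) hm.measurable.aemeasurable
      (f := fun t => g t • G (x - s • t))
      (by rw [hm.map_eq]; exact (hg.int_smul (by have := hG.continuous; fun_prop)).1)
    rw [hm.map_eq] at this
    rw [this]
    simp only [hg.inv _ _ hu]
  rw [hconst] at key
  have h0 := key.unique (hasDerivAt_const _ _)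
  simp only [ofReal_zero, zero_mul, exp_zero, one_smul, one_mul, map_neg, smul_neg,
    integral_neg, neg_eq_zero] at h0
  exact h0

/-- Pointwise estimate. -/
theorem Ker.pt {g : (Fin n → ℂ) → ℝ} {r : ℝ} (hg : Ker g r) {G : (Fin n → ℂ) → ℂ}
    (hG : ContDiff ℝ 1 G) (hc : HasCompactSupport G) (x : Fin n → ℂ) :
    ‖G x - ∫ t, g t • G (x - t)‖ₑ ≤ ∫⁻ s in Ioc (0 : ℝ) 1, ∫⁻ t,
      ENNReal.ofReal (g t * (dbn G (x - s • t) * ‖t‖)) := by
  have hD := hG.continuous_fderiv one_ne_zero
  have hG0 := hG.continuous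
  have hg0 := hg.cont
  have h1 : ∀ t : Fin n → ℂ, G x - G (x - t) =
      ∫ s in Ioc (0 : ℝ) 1, fderiv ℝ G (x - s • t) t := fun t => by
    rw [← intervalIntegral.integral_of_le zero_le_one]
    have hd : ∀ s : ℝ, HasDerivAt (fun s : ℝ => -G (x - s • t)) (fderiv ℝ G (x - s • t) t) s :=
      fun s => by
        have h2 : HasDerivAt (fun s : ℝ => x - s • t) (-t) s := by
          simpa using ((hasDerivAt_id s).smul_const t).const_sub x
        simpa using
          (((hG.differentiable one_ne_zero) _).hasFDerivAt.comp_hasDerivAt s h2).fun_neg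
    rw [intervalIntegral.integral_eq_sub_of_hasDerivAt (fun s _ => hd s)
      (Continuous.intervalIntegrable (by fun_prop) _ _)]
    simp only [one_smul, zero_smul, sub_zero]
    ring
  have h2 : G x - ∫ t, g t • G (x - t) = ∫ t, g t • (G x - G (x - t)) := by
    simp only [smul_sub]
    rw [integral_sub (hg.int_smul continuous_const) (hg.int_smul (by fun_prop)),
      integral_smul_const, hg.int, one_smul]
  have hint : Integrable (Function.uncurry fun (t : Fin n → ℂ) (s : ℝ) =>
      g t • fderiv ℝ G (x - s • t) t) (volume.prod (volume.restrict (Ioc (0 : ℝ) 1))) := by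
    have hK : IsCompact ((closedBall (0 : Fin n → ℂ) r) ×ˢ (Icc (0 : ℝ) 1)) :=
      (isCompact_closedBall 0 r).prod isCompact_Icc
    have hcont : Continuous (Function.uncurry fun (t : Fin n → ℂ) (s : ℝ) =>
        g t • fderiv ℝ G (x - s • t) t) := by
      unfold Function.uncurry
      fun_prop
    have h3 := (hcont.continuousOn.integrableOn_compact (μ := volume.prod volume) hK).mono_set
      (prod_mono subset_rfl Ioc_subset_Icc_self)
    rw [← Measure.restrict_univ (μ := (volume : Measure (Fin n → ℂ))), Measure.prod_restrict]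
    refine h3.of_forall_sdiff_eq_zero (MeasurableSet.univ.prod measurableSet_Ioc) ?_
    rintro ⟨t, s⟩ ⟨h4, h5⟩
    have : g t = 0 := by
      by_contra h
      exact h5 ⟨mem_closedBall_zero_iff.2 (hg.supp t h), h4.2⟩
    simp [this]
  have h3 : ∫ t, g t • (G x - G (x - t)) =
      ∫ s in Ioc (0 : ℝ) 1, ∫ t, g t • fderiv ℝ G (x - s • t) t := by
    rw [← integral_integral_swap hint]
    refine integral_congr_ae (.of_forall fun t => ?_)
    simp only [h1, integral_smul]
  rw [h2, h3]
  refine (enorm_integral_le_lintegral_enorm _).trans (setLIntegral_mono' measurableSet_Ioc ?_)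
  intro s hs
  have h4 : ∫ t, g t • fderiv ℝ G (x - s • t) (I • t) = 0 := by
    have := hg.rot hG hc x s
    simp only [map_smul] at this
    simp only [smul_comm (g _) s, integral_smul] at this
    exact (smul_eq_zero.1 this).resolve_left hs.1.ne'
  have h5 : ∫ t, g t • fderiv ℝ G (x - s • t) t =
      ∫ t, g t • (fderiv ℝ G (x - s • t) t + I * fderiv ℝ G (x - s • t) (I • t)) := by
    simp only [smul_add, ← mul_smul_comm]
    rw [integral_add (hg.int_smul (by fun_prop)) ((hg.int_smul (by fun_prop)).const_mul _),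
      integral_const_mul, h4, mul_zero, add_zero]
  rw [h5]
  refine (enorm_integral_le_lintegral_enorm _).trans (lintegral_mono fun t => ?_)
  rw [← ofReal_norm, norm_smul, Real.norm_of_nonneg (hg.nn t)]
  exact ENNReal.ofReal_le_ofReal (mul_le_mul_of_nonneg_left (anti_le G _ t) (hg.nn t))

/-- Integrated estimate. -/
theorem Ker.est {g : (Fin n → ℂ) → ℝ} {r : ℝ} (hg : Ker g r) (hr : 0 ≤ r)
    {G : (Fin n → ℂ) → ℂ} (hG : ContDiff ℝ 1 G) (hc : HasCompactSupport G) (c : Fin n → ℂ)
    (R : ℝ) : ∫⁻ x in ball c R, ‖G x - ∫ t, g t • G (x - t)‖ₑ ≤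
      ENNReal.ofReal r * ∫⁻ y in ball c (R + r), ENNReal.ofReal (dbn G y) := by
  have hd := dbn_cont hG
  have hg0 := hg.cont
  set J := ∫⁻ y in ball c (R + r), ENNReal.ofReal (dbn G y)
  have h1 : ∀ s ∈ Ioc (0 : ℝ) 1, ∀ t, ∫⁻ x in ball c R,
      ENNReal.ofReal (g t * (dbn G (x - s • t) * ‖t‖)) ≤
        ENNReal.ofReal (g t) * (ENNReal.ofReal r * J) := fun s hs t => by
    by_cases h : g t = 0
    · simp [h]
    have ht := hg.supp t h
    have h2 : ∫⁻ x in ball c R, ENNReal.ofReal (dbn G (x - s • t)) ≤ J := by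
      have hm := measurePreserving_sub_right (volume : Measure (Fin n → ℂ)) (s • t)
      have h3 := hm.setLIntegral_comp_preimage (s := ball c (R + r)) measurableSet_ball
        (f := fun y => ENNReal.ofReal (dbn G y)) (by fun_prop)
      refine le_trans (lintegral_mono_set fun x hx => ?_) h3.le
      rw [mem_preimage, mem_ball, dist_eq_norm]
      rw [mem_ball, dist_eq_norm] at hx
      have h4 : ‖s • t‖ ≤ r := by
        rw [norm_smul, Real.norm_of_nonneg hs.1.le]
        nlinarith [hs.1, hs.2, norm_nonneg t]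
      calc ‖x - s • t - c‖ = ‖(x - c) - s • t‖ := by congr 1; abel
        _ ≤ ‖x - c‖ + ‖s • t‖ := norm_sub_le _ _
        _ < R + r := by linarith
    calc _ ≤ ∫⁻ x in ball c R, ENNReal.ofReal (g t) *
          (ENNReal.ofReal r * ENNReal.ofReal (dbn G (x - s • t))) := by
          refine lintegral_mono fun x => ?_
          rw [← ENNReal.ofReal_mul hr, ← ENNReal.ofReal_mul (hg.nn t)]
          refine ENNReal.ofReal_le_ofReal (mul_le_mul_of_nonneg_left ?_ (hg.nn t))
          rw [mul_comm r]
          exact mul_le_mul_of_nonneg_left ht (dbn_nonneg _ _)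
      _ ≤ _ := by
          rw [lintegral_const_mul' _ _ ENNReal.ofReal_ne_top,
            lintegral_const_mul' _ _ ENNReal.ofReal_ne_top]
          gcongr
  calc _ ≤ ∫⁻ x in ball c R, ∫⁻ s in Ioc (0 : ℝ) 1, ∫⁻ t,
        ENNReal.ofReal (g t * (dbn G (x - s • t) * ‖t‖)) := lintegral_mono fun x => hg.pt hG hc x
    _ = ∫⁻ s in Ioc (0 : ℝ) 1, ∫⁻ x in ball c R, ∫⁻ t,
        ENNReal.ofReal (g t * (dbn G (x - s • t) * ‖t‖)) := by
        refine lintegral_lintegral_swap (Measurable.aemeasurable ?_)
        refine Measurable.lintegral_prod_right' (f := fun p : ((Fin n → ℂ) × ℝ) × (Fin n → ℂ) =>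
          ENNReal.ofReal (g p.2 * (dbn G (p.1.1 - p.1.2 • p.2) * ‖p.2‖))) ?_
        exact (Continuous.measurable (by fun_prop)).ennreal_ofReal
    _ ≤ ∫⁻ _ in Ioc (0 : ℝ) 1, ENNReal.ofReal r * J := by
        refine setLIntegral_mono' measurableSet_Ioc fun s hs => ?_
        rw [lintegral_lintegral_swap (Measurable.aemeasurable
          (Continuous.measurable (by fun_prop)).ennreal_ofReal)]
        refine (lintegral_mono (h1 s hs)).trans ?_
        rw [lintegral_mul_const _ (by fun_prop),
          ← ofReal_integral_eq_lintegral_ofReal hg.integrable (.of_forall hg.nn), hg.int]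
        simp
    _ = _ := by simp

end Pool.Agent.Lib.HS66
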